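import Mathlib

/-!
# Exponentially long best-response paths in budgeted sharing games

Agents are the neurons of a network with inhibitory symmetric couplings. Neuron `v` can serve its
private site (it is *out*), or all the sites it shares with its neighbours (it is *in*); the costs
make every other feasible strategy a subset of the second one. The network consists of levels
`(x, d, g)`; each time `x` of one level changes its value, `x` of the next level changes its value
twice: `d` is a delayed negation of `x`, the next `x` is the exclusive or of `x` and `d`, and `g` is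
the nor of `x` and `d`, used to compute it. The couplings decrease by a factor `8` from level to level.
-/

set_option autoImplicit false
set_option linter.unusedSectionVars false
set_option linter.unusedVariables false

namespace Pool.Agent.Results.MP_2a1065_lc.ExponentialPath

open Finset

/-- An instance of the budgeted sharing game with set of agents `U` and set of sites `H`: the
bipartite graph of interests, positive query rates and costs of the sites and positive budgets of
the agents. -/
structure Game (U H : Type) where
  /-- agent `j` is interested in site `i` -/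
  interested : U → H → Prop
  /-- the query rate of a site -/
  rate : H → ℝ
  /-- the cost of a site -/
  cost : H → ℝ
  /-- the budget of an agent -/
  budget : U → ℝ
  rate_pos : ∀ i, 0 < rate i
  cost_pos : ∀ i, 0 < cost i
  budget_pos : ∀ j, 0 < budget j

section Defs

variable {U H : Type} [Fintype U] [DecidableEq U] [DecidableEq H]

/-- `s` is a feasible strategy of agent `j`: `j` is interested in all sites of `s` and their total cost
is at most the budget of `j`. -/
def Game.Feasible (G : Game U H) (j : U) (s : Finset H) : Prop :=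
  (∀ i ∈ s, G.interested j i) ∧ ∑ i ∈ s, G.cost i ≤ G.budget j

/-- The number of agents serving the site `i` in the state `S`. -/
def load (S : U → Finset H) (i : H) : ℕ := (univ.filter fun j => i ∈ S j).card

/-- The payoff of agent `j` in the state `S`. -/
noncomputable def Game.payoff (G : Game U H) (S : U → Finset H) (j : U) : ℝ :=
  ∑ i ∈ S j, G.rate i / (load S i : ℝ)

/-- A best-response move from `S` to `S'`: a single agent `j` changes its strategy to a feasible one
that maximises its payoff (the strategies of the others being fixed), and its payoff strictly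
increases. -/
def Game.Move (G : Game U H) (S S' : U → Finset H) : Prop :=
  ∃ (j : U) (s : Finset H), G.Feasible j s ∧ S' = Function.update S j s ∧
    (∀ t, G.Feasible j t → G.payoff (Function.update S j t) j ≤ G.payoff S' j) ∧
    G.payoff S j < G.payoff S' j

/-- `G.Path L S S'`: there is a best-response path with `L` moves from `S` to `S'`. -/
inductive Game.Path (G : Game U H) : ℕ → (U → Finset H) → (U → Finset H) → Prop
  | nil (S : U → Finset H) : Game.Path G 0 S S
  | cons {L : ℕ} {S S' S'' : U → Finset H} (h : G.Move S S') (p : Game.Path G L S' S'') :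
      Game.Path G (L + 1) S S''

theorem Game.Path.trans {G : Game U H} {L L' : ℕ} {S S' S'' : U → Finset H}
    (h : G.Path L S S') (h' : G.Path L' S' S'') : G.Path (L + L') S S'' := by
  induction h with
  | nil S => simpa using h'
  | @cons L S S₁ S₂ h p ih =>
    have h1 := Game.Path.cons h (ih h')
    rw [show L + 1 + L' = L + L' + 1 from by omega]
    exact h1

end Defs

/-! ### Networks -/

/-- A network: edges `e` joining two different vertices `a e` and `b e`, with rates `q e`, and outside
options `θ v`. -/
structure Net (V E : Type) where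
  /-- the first end -/
  a : E → V
  /-- the second end -/
  b : E → V
  ne : ∀ e, a e ≠ b e
  /-- the rate of the edge -/
  q : E → ℝ
  q_pos : ∀ e, 0 < q e
  /-- the rate of the private site -/
  θ : V → ℝ
  θ_pos : ∀ v, 0 < θ v

section Network

variable {V E : Type} [Fintype V] [DecidableEq V] [Fintype E] [DecidableEq E]

/-- The edges at `v`. -/
def Net.inc (M : Net V E) (v : V) : Finset E := univ.filter fun e => M.a e = v ∨ M.b e = v

/-- The game of a network. -/
noncomputable def Net.game (M : Net V E) : Game V (V ⊕ E) where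
  interested := fun v h => match h with
    | .inl u => u = v
    | .inr e => M.a e = v ∨ M.b e = v
  rate := fun h => match h with
    | .inl u => M.θ u
    | .inr e => M.q e
  cost := fun h => match h with
    | .inl _ => 6
    | .inr _ => 1
  budget := fun _ => 6
  rate_pos := by
    rintro (u | e)
    · exact M.θ_pos u
    · exact M.q_pos e
  cost_pos := by
    rintro (u | e) <;> norm_num
  budget_pos := fun _ => by norm_num

/-- The state of the game. -/
def Net.state (M : Net V E) (x : V → Bool) : V → Finset (V ⊕ E) := fun v =>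
  if x v then (M.inc v).map Function.Embedding.inr else {Sum.inl v}

/-- a Boolean value as a number -/
def bit (t : Bool) : ℝ := if t then 1 else 0

/-- The other end of an edge at `v`. -/
def Net.other (M : Net V E) (v : V) (e : E) : V := if M.a e = v then M.b e else M.a e

/-- The payoff of all shared sites. -/
noncomputable def Net.I (M : Net V E) (x : V → Bool) (v : V) : ℝ :=
  ∑ e, ((if M.a e = v then M.q e / (1 + bit (x (M.b e))) else 0) +
    (if M.b e = v then M.q e / (1 + bit (x (M.a e))) else 0))

theorem Net.I_eq (M : Net V E) (x : V → Bool) (v : V) :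
    M.I x v = ∑ e ∈ M.inc v, M.q e / (1 + bit (x (M.other v e))) := by
  unfold Net.I Net.inc
  rw [Finset.sum_filter]
  refine Finset.sum_congr rfl fun e _ => ?_
  unfold Net.other
  by_cases h1 : M.a e = v
  · have h2 : M.b e ≠ v := fun h => M.ne e (h1.trans h.symm)
    simp [h1, h2]
  · by_cases h2 : M.b e = v
    · simp [h1, h2]
    · simp [h1, h2]

theorem Net.other_ne (M : Net V E) {v : V} {e : E} (he : e ∈ M.inc v) : M.other v e ≠ v := by
  unfold Net.other
  unfold Net.inc at he
  rw [Finset.mem_filter] at he
  split_ifs with h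
  · exact fun h' => M.ne e (h.trans h'.symm)
  · exact h

theorem Net.load_edge (M : Net V E) (x : V → Bool) {v : V} {e : E} (he : e ∈ M.inc v)
    {t : Finset (V ⊕ E)} (ht : Sum.inr e ∈ t) :
    (load (Function.update (M.state x) v t) (Sum.inr e) : ℝ) = 1 + bit (x (M.other v e)) := by
  have h1 : (univ.filter fun j => Sum.inr e ∈ Function.update (M.state x) v t j) =
      if x (M.other v e) then {v, M.other v e} else {v} := by
    ext j
    rw [Finset.mem_filter]
    by_cases hj : j = v
    · subst hj
      simp only [Finset.mem_univ, true_and, Function.update_self, ht, true_iff]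
      split_ifs <;> simp
    · rw [Function.update_of_ne hj]
      have h2 : Sum.inr e ∈ M.state x j ↔ (x j = true ∧ j = M.other v e) := by
        unfold Net.state
        by_cases hx : x j
        · rw [if_pos hx, Finset.mem_map]
          simp only [Function.Embedding.inr_apply, Sum.inr.injEq, exists_eq_right, hx, true_and]
          unfold Net.inc at he ⊢
          rw [Finset.mem_filter] at he ⊢
          simp only [Finset.mem_univ, true_and] at he ⊢
          unfold Net.other
          rcases he with he | he
          · rw [if_pos he]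
            constructor
            · rintro (h | h)
              · exact absurd (h.symm.trans he) hj
              · exact h.symm
            · rintro h
              exact Or.inr h.symm
          · have hav : M.a e ≠ v := fun h => M.ne e (h.trans he.symm)
            rw [if_neg hav]
            constructor
            · rintro (h | h)
              · exact h.symm
              · exact absurd (h.symm.trans he) hj
            · rintro h
              exact Or.inl h.symm
        · rw [if_neg hx]
          simp [hx]
      rw [h2]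
      simp only [Finset.mem_univ, true_and]
      split_ifs with h3
      · simp only [Finset.mem_insert, Finset.mem_singleton, hj, false_or]
        constructor
        · rintro ⟨_, h⟩
          exact h
        · rintro rfl
          exact ⟨h3, rfl⟩
      · simp only [Finset.mem_singleton, hj, iff_false]
        rintro ⟨h4, rfl⟩
        exact h3 h4
  unfold load
  rw [h1]
  unfold bit
  split_ifs with h
  · rw [Finset.card_pair (M.other_ne he).symm]
    norm_num
  · simp

theorem Net.load_private (M : Net V E) (x : V → Bool) {v : V} {t : Finset (V ⊕ E)}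
    (ht : Sum.inl v ∈ t) :
    (load (Function.update (M.state x) v t) (Sum.inl v) : ℝ) = 1 := by
  have h1 : (univ.filter fun j => Sum.inl v ∈ Function.update (M.state x) v t j) = {v} := by
    ext j
    rw [Finset.mem_filter]
    by_cases hj : j = v
    · subst hj
      simp [ht]
    · rw [Function.update_of_ne hj]
      unfold Net.state
      split_ifs
      · simp [hj]
      · simp only [Finset.mem_univ, true_and, Finset.mem_singleton, Sum.inl.injEq]
        exact ⟨fun h => h.symm, fun h => h.symm⟩
  unfold load
  rw [h1]
  simp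

theorem bit_nonneg (t : Bool) : 0 ≤ bit t := by
  unfold bit
  split_ifs <;> norm_num

/-- A strategy of `v` is a set of edges at `v` or the private site. -/
theorem Net.feasible_cases (M : Net V E) {v : V} {t : Finset (V ⊕ E)}
    (h : M.game.Feasible v t) : t = {Sum.inl v} ∨ t ⊆ (M.inc v).map Function.Embedding.inr := by
  obtain ⟨h1, h2⟩ := h
  by_cases hv : Sum.inl v ∈ t
  · left
    by_contra hne
    have h3 : ∃ i ∈ t, i ≠ Sum.inl v := by
      by_contra hc
      push Not at hc
      exact hne (Finset.eq_singleton_iff_unique_mem.2 ⟨hv, hc⟩)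
    obtain ⟨i, hi, hi2⟩ := h3
    have h4 : ∑ j ∈ ({Sum.inl v, i} : Finset (V ⊕ E)), M.game.cost j ≤ ∑ j ∈ t, M.game.cost j := by
      refine Finset.sum_le_sum_of_subset_of_nonneg ?_ fun j _ _ => (M.game.cost_pos j).le
      intro j hj
      rw [Finset.mem_insert, Finset.mem_singleton] at hj
      rcases hj with rfl | rfl <;> assumption
    rw [Finset.sum_pair hi2.symm] at h4
    have h5 := M.game.cost_pos i
    have h6 : M.game.cost (Sum.inl v) = 6 := rfl
    have h7 : M.game.budget v = 6 := rfl
    linarith
  · right
    rintro (u | e) hi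
    · have := h1 _ hi
      have h3 : u = v := this
      subst h3
      exact absurd hi hv
    · have h3 : M.a e = v ∨ M.b e = v := h1 _ hi
      rw [Finset.mem_map]
      exact ⟨e, by unfold Net.inc; simp [h3], rfl⟩

theorem Net.payoff_le (M : Net V E) (x : V → Bool) {v : V} {t : Finset (V ⊕ E)}
    (h : M.game.Feasible v t) :
    M.game.payoff (Function.update (M.state x) v t) v ≤ max (M.θ v) (M.I x v) := by
  rcases M.feasible_cases h with rfl | h1
  · refine le_trans (le_of_eq ?_) (le_max_left _ _)
    unfold Game.payoff
    rw [Function.update_self, Finset.sum_singleton, M.load_private x (Finset.mem_singleton_self _),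
      div_one]
    rfl
  · refine le_trans ?_ (le_max_right _ _)
    unfold Game.payoff
    rw [Function.update_self, M.I_eq]
    have h2 : ∑ i ∈ t, M.game.rate i / (load (Function.update (M.state x) v t) i : ℝ) =
        ∑ i ∈ t, (match i with
          | .inl _ => 0
          | .inr e => M.q e / (1 + bit (x (M.other v e)))) := by
      refine Finset.sum_congr rfl fun i hi => ?_
      rcases i with u | e
      · have := h1 hi
        simp at this
      · have he := h1 hi
        rw [Finset.mem_map] at he
        obtain ⟨e', he', h3⟩ := he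
        have h4 : e' = e := Sum.inr_injective h3
        subst h4
        rw [M.load_edge x he' hi]
        rfl
    rw [h2]
    refine le_trans (Finset.sum_le_sum_of_subset_of_nonneg h1 ?_) ?_
    · rintro (u | e) _ _
      · exact le_rfl
      · have := bit_nonneg (x (M.other v e))
        have := (M.q_pos e).le
        positivity
    · rw [Finset.sum_map]
      exact le_rfl

theorem Net.state_update (M : Net V E) (x : V → Bool) (v : V) (t : Bool) :
    M.state (Function.update x v t) =
      Function.update (M.state x) v
        (if t then (M.inc v).map Function.Embedding.inr else {Sum.inl v}) := by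
  funext j
  by_cases hj : j = v
  · subst hj
    simp [Net.state]
  · rw [Function.update_of_ne hj]
    unfold Net.state
    rw [Function.update_of_ne hj]

theorem Net.payoff_in (M : Net V E) (x : V → Bool) (v : V) :
    M.game.payoff (Function.update (M.state x) v ((M.inc v).map Function.Embedding.inr)) v =
      M.I x v := by
  unfold Game.payoff
  rw [Function.update_self, M.I_eq, Finset.sum_map]
  refine Finset.sum_congr rfl fun e he => ?_
  rw [Function.Embedding.inr_apply, M.load_edge x he]
  · rfl
  · exact Finset.mem_map.2 ⟨e, he, rfl⟩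

theorem Net.payoff_out (M : Net V E) (x : V → Bool) (v : V) :
    M.game.payoff (Function.update (M.state x) v {Sum.inl v}) v = M.θ v := by
  unfold Game.payoff
  rw [Function.update_self, Finset.sum_singleton, M.load_private x (Finset.mem_singleton_self _),
    div_one]
  rfl

theorem Net.feasible_in (M : Net V E) (hM : ∀ v, (M.inc v).card ≤ 6) (v : V) :
    M.game.Feasible v ((M.inc v).map Function.Embedding.inr) := by
  constructor
  · intro i hi
    rw [Finset.mem_map] at hi
    obtain ⟨e, he, rfl⟩ := hi
    unfold Net.inc at he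
    rw [Finset.mem_filter] at he
    exact he.2
  · rw [Finset.sum_map]
    have h1 : ∑ e ∈ M.inc v, M.game.cost (Function.Embedding.inr e) = ((M.inc v).card : ℝ) := by
      rw [Finset.card_eq_sum_ones, Nat.cast_sum]
      refine Finset.sum_congr rfl fun e _ => ?_
      simp [Net.game]
    rw [h1]
    have : ((M.inc v).card : ℝ) ≤ 6 := by exact_mod_cast hM v
    exact this

theorem Net.feasible_out (M : Net V E) (v : V) : M.game.Feasible v {Sum.inl v} := by
  constructor
  · intro i hi
    rw [Finset.mem_singleton] at hi
    subst hi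
    exact rfl
  · rw [Finset.sum_singleton]
    exact le_refl _

theorem Net.feasible_state (M : Net V E) (hM : ∀ v, (M.inc v).card ≤ 6) (x : V → Bool) (v : V) :
    M.game.Feasible v (M.state x v) := by
  unfold Net.state
  split_ifs
  · exact M.feasible_in hM v
  · exact M.feasible_out v

theorem Net.flip_up (M : Net V E) (hM : ∀ v, (M.inc v).card ≤ 6) (x : V → Bool) (v : V)
    (hx : x v = false) (h : M.θ v < M.I x v) :
    M.game.Path 1 (M.state x) (M.state (Function.update x v true)) := by
  refine Game.Path.cons ⟨v, (M.inc v).map Function.Embedding.inr, M.feasible_in hM v, ?_, ?_, ?_⟩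
    (Game.Path.nil _)
  · rw [M.state_update]
    rfl
  · intro t ht
    have h1 := M.payoff_le x ht
    rw [max_eq_right h.le] at h1
    rw [M.state_update, if_pos rfl, M.payoff_in]
    exact h1
  · rw [M.state_update, if_pos rfl, M.payoff_in]
    have h1 := M.payoff_out x v
    have h2 : Function.update (M.state x) v {Sum.inl v} = M.state x := by
      have h3 : M.state x v = {Sum.inl v} := by
        unfold Net.state
        simp [hx]
      rw [← h3, Function.update_eq_self]
    rw [h2] at h1
    rw [h1]
    exact h

theorem Net.flip_down (M : Net V E) (x : V → Bool) (v : V)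
    (hx : x v = true) (h : M.I x v < M.θ v) :
    M.game.Path 1 (M.state x) (M.state (Function.update x v false)) := by
  refine Game.Path.cons ⟨v, {Sum.inl v}, M.feasible_out v, ?_, ?_, ?_⟩
    (Game.Path.nil _)
  · rw [M.state_update]
    rfl
  · intro t ht
    have h1 := M.payoff_le x ht
    rw [max_eq_left h.le] at h1
    rw [M.state_update, if_neg (by decide), M.payoff_out]
    exact h1
  · rw [M.state_update, if_neg (by decide), M.payoff_out]
    have h1 := M.payoff_in x v
    have h2 : Function.update (M.state x) v ((M.inc v).map Function.Embedding.inr) = M.state x := by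
      have h3 : M.state x v = (M.inc v).map Function.Embedding.inr := by
        unfold Net.state
        simp [hx]
      rw [← h3, Function.update_eq_self]
    rw [h2] at h1
    rw [h1]
    exact h

end Network

/-! ### The family -/

section Family

variable (N : ℕ) [NeZero N] [Fact (1 < N)]

/-- The scale of a level. -/
noncomputable def c (k : ZMod N) : ℝ := (1 / 8) ^ k.val

theorem c_pos (k : ZMod N) : 0 < c N k := by unfold c; positivity

/-- first end of an edge -/
def fa (e : ZMod N × Fin 6) : ZMod N × Fin 3 :=
  (e.1, ![0, 0, 1, 0, 1, 2] e.2)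

/-- second end of an edge -/
def fb (e : ZMod N × Fin 6) : ZMod N × Fin 3 :=
  (![e.1, e.1, e.1, e.1 + 1, e.1 + 1, e.1 + 1] e.2, ![1, 2, 2, 0, 0, 0] e.2)

/-- rates of the edges -/
noncomputable def fq (e : ZMod N × Fin 6) : ℝ := ![12, 8, 8, 2, 2, 4] e.2 * c N e.1

/-- outside options -/
noncomputable def fθ (v : ZMod N × Fin 3) : ℝ := ![141 / 2, 17, 17] v.2 * c N v.1

/-- The network. -/
noncomputable def net : Net (ZMod N × Fin 3) (ZMod N × Fin 6) where
  a := fa N
  b := fb N
  ne := by
    rintro ⟨k, e⟩ h
    unfold fa fb at h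
    have : Nontrivial (ZMod N) := ZMod.nontrivial N
    fin_cases e <;> simp [Prod.ext_iff] at h
  q := fq N
  q_pos := by
    rintro ⟨k, e⟩
    unfold fq
    refine mul_pos ?_ (c_pos N k)
    fin_cases e <;> norm_num
  θ := fθ N
  θ_pos := by
    rintro ⟨k, e⟩
    unfold fθ
    refine mul_pos ?_ (c_pos N k)
    fin_cases e <;> norm_num

theorem I_x (s : ZMod N × Fin 3 → Bool) (k : ZMod N) :
    (net N).I s (k, 0) = 12 * c N k / (1 + bit (s (k, 1))) + 8 * c N k / (1 + bit (s (k, 2))) +
      2 * c N k / (1 + bit (s (k + 1, 0))) +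
      (2 * c N (k - 1) / (1 + bit (s (k - 1, 0))) + 2 * c N (k - 1) / (1 + bit (s (k - 1, 1))) +
      4 * c N (k - 1) / (1 + bit (s (k - 1, 2)))) := by
  unfold Net.I
  rw [Fintype.sum_prod_type]
  simp only [Fin.sum_univ_six, net, fa, fb, fq, Prod.ext_iff]
  simp [Finset.sum_add_distrib, ← eq_sub_iff_add_eq]
  ring

theorem I_d (s : ZMod N × Fin 3 → Bool) (k : ZMod N) :
    (net N).I s (k, 1) = 12 * c N k / (1 + bit (s (k, 0))) + 8 * c N k / (1 + bit (s (k, 2))) +
      2 * c N k / (1 + bit (s (k + 1, 0))) := by
  unfold Net.I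
  rw [Fintype.sum_prod_type]
  simp only [Fin.sum_univ_six, net, fa, fb, fq, Prod.ext_iff]
  simp [Finset.sum_add_distrib, ← eq_sub_iff_add_eq]

theorem I_g (s : ZMod N × Fin 3 → Bool) (k : ZMod N) :
    (net N).I s (k, 2) = 8 * c N k / (1 + bit (s (k, 0))) + 8 * c N k / (1 + bit (s (k, 1))) +
      4 * c N k / (1 + bit (s (k + 1, 0))) := by
  unfold Net.I
  rw [Fintype.sum_prod_type]
  simp only [Fin.sum_univ_six, net, fa, fb, fq, Prod.ext_iff]
  simp [Finset.sum_add_distrib, ← eq_sub_iff_add_eq]

theorem inc_card (v : ZMod N × Fin 3) : ((net N).inc v).card ≤ 6 := by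
  obtain ⟨k, t⟩ := v
  fin_cases t
  · have h : (net N).inc (k, 0) ⊆
        {(k, 0), (k, 1), (k, 3), (k - 1, 3), (k - 1, 4), (k - 1, 5)} := by
      rintro ⟨l, e⟩ he
      unfold Net.inc at he
      rw [Finset.mem_filter] at he
      fin_cases e <;> simp [net, fa, fb, Prod.ext_iff, ← eq_sub_iff_add_eq] at he ⊢ <;> tauto
    exact (Finset.card_le_card h).trans Finset.card_le_six
  · have h : (net N).inc (k, 1) ⊆ {(k, 0), (k, 2), (k, 4)} := by
      rintro ⟨l, e⟩ he
      unfold Net.inc at he
      rw [Finset.mem_filter] at he
      fin_cases e <;> simp [net, fa, fb, Prod.ext_iff, ← eq_sub_iff_add_eq] at he ⊢ <;> tauto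
    exact (Finset.card_le_card h).trans (Finset.card_le_three.trans (by norm_num))
  · have h : (net N).inc (k, 2) ⊆ {(k, 1), (k, 2), (k, 5)} := by
      rintro ⟨l, e⟩ he
      unfold Net.inc at he
      rw [Finset.mem_filter] at he
      fin_cases e <;> simp [net, fa, fb, Prod.ext_iff, ← eq_sub_iff_add_eq] at he ⊢ <;> tauto
    exact (Finset.card_le_card h).trans (Finset.card_le_three.trans (by norm_num))

end Family

/-! ### The path -/

section Path

variable (K : ℕ)

instance : Fact (1 < K + 2) := ⟨by omega⟩

/-- The level number `l`. -/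
def lv (l : ℕ) : ZMod (K + 2) := (l : ZMod (K + 2))

theorem lv_inj {l l' : ℕ} (h : l ≤ K + 1) (h' : l' ≤ K + 1) (hne : l ≠ l') : lv K l ≠ lv K l' := by
  intro he
  unfold lv at he
  rw [ZMod.natCast_eq_natCast_iff'] at he
  rw [Nat.mod_eq_of_lt (by omega), Nat.mod_eq_of_lt (by omega)] at he
  exact hne he

theorem lv_succ (l : ℕ) : lv K l + 1 = lv K (l + 1) := by
  unfold lv
  push_cast
  rfl

theorem lv_succ_sub (l : ℕ) : lv K (l + 1) - 1 = lv K l := by
  unfold lv
  push_cast
  ring

theorem c_lv {l : ℕ} (h : l ≤ K + 1) : c (K + 2) (lv K l) = (1 / 8) ^ l := by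
  unfold c lv
  rw [ZMod.val_natCast_of_lt (by omega)]

/-- States of the network. -/
abbrev St : Type := ZMod (K + 2) × Fin 3 → Bool

/-- All levels after level `l` are at rest. -/
def Below (s : St K) (l : ℕ) : Prop :=
  (∀ i, l < i → i ≤ K → s (lv K i, 0) = true ∧ s (lv K i, 1) = false ∧ s (lv K i, 2) = false) ∧
    s (lv K (K + 1), 0) = false

/-- The situation before `x` of level `k + 1` goes up. -/
def UpHyp (s : St K) (k j : ℕ) : Prop :=
  s (lv K (k + 1), 0) = false ∧ s (lv K (k + 1), 1) = decide (j ≠ 0) ∧
    s (lv K (k + 1), 2) = false ∧ Below K s (k + 1) ∧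
    s (lv K k, 0) = !s (lv K k, 1) ∧ s (lv K k, 2) = false

/-- The situation before `x` of level `k + 1` goes down. -/
def DownHyp (s : St K) (k : ℕ) : Prop :=
  s (lv K (k + 1), 0) = true ∧ s (lv K (k + 1), 1) = false ∧
    s (lv K (k + 1), 2) = false ∧ Below K s (k + 1) ∧
    s (lv K k, 0) = !s (lv K k, 2) ∧ s (lv K k, 1) = !s (lv K k, 2)

theorem flip_x_up {s : St K} {k j : ℕ} (hk : k + 1 + j = K) (h : UpHyp K s k j) :
    (net (K + 2)).game.Path 1 ((net (K + 2)).state s)
      ((net (K + 2)).state (Function.update s (lv K (k + 1), 0) true)) := by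
  obtain ⟨h1, h2, h3, ⟨h4, h4'⟩, h5, h6⟩ := h
  refine (net (K + 2)).flip_up (inc_card (K + 2)) s _ h1 ?_
  rw [I_x, lv_succ, lv_succ_sub, h2, h3, h5, h6, c_lv K (by omega), c_lv K (by omega)]
  have hC : (0 : ℝ) < (1 / 8) ^ (k + 1) := by positivity
  have hC2 : ((1 : ℝ) / 8) ^ k = 8 * (1 / 8) ^ (k + 1) := by rw [pow_succ]; ring
  have hθ : (net (K + 2)).θ (lv K (k + 1), 0) = 141 / 2 * (1 / 8) ^ (k + 1) := by
    show fθ (K + 2) _ = _
    unfold fθ
    simp only [c_lv K (show k + 1 ≤ K + 1 by omega)]
    rfl
  rw [hθ, hC2]
  clear hθ hC2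
  generalize ((1 : ℝ) / 8) ^ (k + 1) = C at hC ⊢
  rcases Nat.eq_zero_or_pos j with hj | hj
  · subst hj
    have h7 : s (lv K (k + 1 + 1), 0) = false := by
      have h8 : k + 1 + 1 = K + 1 := by omega
      rw [h8]
      exact h4'
    rw [h7]
    cases h8 : s (lv K k, 1) <;> simp [bit] <;> linarith
  · obtain ⟨h7, -, -⟩ := h4 (k + 1 + 1) (by omega) (by omega)
    rw [h7]
    have h9 : decide (j ≠ 0) = true := by simp; omega
    rw [h9]
    cases h8 : s (lv K k, 1) <;> simp [bit] <;> linarith

theorem flip_x_down {s : St K} {k j : ℕ} (hk : k + 1 + j = K) (h : DownHyp K s k) :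
    (net (K + 2)).game.Path 1 ((net (K + 2)).state s)
      ((net (K + 2)).state (Function.update s (lv K (k + 1), 0) false)) := by
  obtain ⟨h1, h2, h3, ⟨h4, h4'⟩, h5, h6⟩ := h
  refine (net (K + 2)).flip_down s _ h1 ?_
  rw [I_x, lv_succ, lv_succ_sub, h2, h3, h5, h6, c_lv K (by omega), c_lv K (by omega)]
  have hC : (0 : ℝ) < (1 / 8) ^ (k + 1) := by positivity
  have hC2 : ((1 : ℝ) / 8) ^ k = 8 * (1 / 8) ^ (k + 1) := by rw [pow_succ]; ring
  have hθ : (net (K + 2)).θ (lv K (k + 1), 0) = 141 / 2 * (1 / 8) ^ (k + 1) := by
    show fθ (K + 2) _ = _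
    unfold fθ
    simp only [c_lv K (show k + 1 ≤ K + 1 by omega)]
    rfl
  rw [hθ, hC2]
  clear hθ hC2
  generalize ((1 : ℝ) / 8) ^ (k + 1) = C at hC ⊢
  cases h8 : s (lv K k, 2) <;> cases h9 : s (lv K (k + 1 + 1), 0) <;> simp [bit] <;> linarith

theorem flip_d_down {s : St K} {k : ℕ} (hk : k ≤ K) (h0 : s (lv K k, 0) = true)
    (h1 : s (lv K k, 1) = true) (h2 : s (lv K k, 2) = false) (h3 : s (lv K (k + 1), 0) = false) :
    (net (K + 2)).game.Path 1 ((net (K + 2)).state s)
      ((net (K + 2)).state (Function.update s (lv K k, 1) false)) := by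
  refine (net (K + 2)).flip_down s _ h1 ?_
  rw [I_d, lv_succ, h0, h2, h3, c_lv K (by omega)]
  have hC : (0 : ℝ) < (1 / 8) ^ k := by positivity
  have hθ : (net (K + 2)).θ (lv K k, 1) = 17 * (1 / 8) ^ k := by
    show fθ (K + 2) _ = _
    unfold fθ
    simp only [c_lv K (show k ≤ K + 1 by omega)]
    rfl
  rw [hθ]
  clear hθ
  generalize ((1 : ℝ) / 8) ^ k = C at hC ⊢
  simp [bit]
  linarith

theorem flip_d_up {s : St K} {k : ℕ} (hk : k ≤ K) (h0 : s (lv K k, 0) = false)
    (h1 : s (lv K k, 1) = false) (h2 : s (lv K k, 2) = true) (h3 : s (lv K (k + 1), 0) = false) :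
    (net (K + 2)).game.Path 1 ((net (K + 2)).state s)
      ((net (K + 2)).state (Function.update s (lv K k, 1) true)) := by
  refine (net (K + 2)).flip_up (inc_card (K + 2)) s _ h1 ?_
  rw [I_d, lv_succ, h0, h2, h3, c_lv K (by omega)]
  have hC : (0 : ℝ) < (1 / 8) ^ k := by positivity
  have hθ : (net (K + 2)).θ (lv K k, 1) = 17 * (1 / 8) ^ k := by
    show fθ (K + 2) _ = _
    unfold fθ
    simp only [c_lv K (show k ≤ K + 1 by omega)]
    rfl
  rw [hθ]
  clear hθ
  generalize ((1 : ℝ) / 8) ^ k = C at hC ⊢
  simp [bit]
  linarith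

theorem flip_g_up {s : St K} {k : ℕ} (hk : k ≤ K) (h0 : s (lv K k, 0) = false)
    (h1 : s (lv K k, 1) = false) (h2 : s (lv K k, 2) = false) (h3 : s (lv K (k + 1), 0) = true) :
    (net (K + 2)).game.Path 1 ((net (K + 2)).state s)
      ((net (K + 2)).state (Function.update s (lv K k, 2) true)) := by
  refine (net (K + 2)).flip_up (inc_card (K + 2)) s _ h2 ?_
  rw [I_g, lv_succ, h0, h1, h3, c_lv K (by omega)]
  have hC : (0 : ℝ) < (1 / 8) ^ k := by positivity
  have hθ : (net (K + 2)).θ (lv K k, 2) = 17 * (1 / 8) ^ k := by
    show fθ (K + 2) _ = _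
    unfold fθ
    simp only [c_lv K (show k ≤ K + 1 by omega)]
    rfl
  rw [hθ]
  clear hθ
  generalize ((1 : ℝ) / 8) ^ k = C at hC ⊢
  simp [bit]
  linarith

theorem flip_g_down {s : St K} {k : ℕ} (hk : k ≤ K) (h0 : s (lv K k, 0) = false)
    (h1 : s (lv K k, 1) = true) (h2 : s (lv K k, 2) = true) (h3 : s (lv K (k + 1), 0) = false) :
    (net (K + 2)).game.Path 1 ((net (K + 2)).state s)
      ((net (K + 2)).state (Function.update s (lv K k, 2) false)) := by
  refine (net (K + 2)).flip_down s _ h2 ?_
  rw [I_g, lv_succ, h0, h1, h3, c_lv K (by omega)]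
  have hC : (0 : ℝ) < (1 / 8) ^ k := by positivity
  have hθ : (net (K + 2)).θ (lv K k, 2) = 17 * (1 / 8) ^ k := by
    show fθ (K + 2) _ = _
    unfold fθ
    simp only [c_lv K (show k ≤ K + 1 by omega)]
    rfl
  rw [hθ]
  clear hθ
  generalize ((1 : ℝ) / 8) ^ k = C at hC ⊢
  simp [bit]
  linarith

/-- The result of an upward change of level `k + 1`. -/
def UpRes (s s' : St K) (k : ℕ) : Prop :=
  s' (lv K (k + 1), 0) = true ∧ s' (lv K (k + 1), 1) = false ∧ s' (lv K (k + 1), 2) = false ∧
    ∀ v : ZMod (K + 2) × Fin 3, v.1 ≠ lv K (k + 1) → s' v = s v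

/-- The result of a downward change of level `k + 1`. -/
def DownRes (s s' : St K) (k j : ℕ) : Prop :=
  s' (lv K (k + 1), 0) = false ∧ s' (lv K (k + 1), 1) = decide (j ≠ 0) ∧
    s' (lv K (k + 1), 2) = false ∧
    ∀ v : ZMod (K + 2) × Fin 3, v.1 ≠ lv K (k + 1) → s' v = s v

theorem main : ∀ j k : ℕ, k + 1 + j = K →
    (∀ s : St K, UpHyp K s k j → ∃ (L : ℕ) (s' : St K), 2 ^ j ≤ L ∧
      (net (K + 2)).game.Path L ((net (K + 2)).state s) ((net (K + 2)).state s') ∧
      UpRes K s s' k) ∧
    (∀ s : St K, DownHyp K s k → ∃ (L : ℕ) (s' : St K), 2 ^ j ≤ L ∧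
      (net (K + 2)).game.Path L ((net (K + 2)).state s) ((net (K + 2)).state s') ∧
      DownRes K s s' k j) := by
  intro j
  induction j with
  | zero =>
    intro k hk
    constructor
    · intro s hs
      refine ⟨1, _, le_refl _, flip_x_up K hk hs, ?_, ?_, ?_, ?_⟩
      · simp
      · rw [Function.update_of_ne (by simp)]
        simpa using hs.2.1
      · rw [Function.update_of_ne (by simp)]
        exact hs.2.2.1
      · intro v hv
        rw [Function.update_of_ne]
        rintro rfl
        exact hv rfl
    · intro s hs
      refine ⟨1, _, le_refl _, flip_x_down K hk hs, ?_, ?_, ?_, ?_⟩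
      · simp
      · rw [Function.update_of_ne (by simp)]
        simpa using hs.2.1
      · rw [Function.update_of_ne (by simp)]
        exact hs.2.2.1
      · intro v hv
        rw [Function.update_of_ne]
        rintro rfl
        exact hv rfl
  | succ j ih =>
    intro k hk
    have hne1 : lv K (k + 1 + 1) ≠ lv K (k + 1) := lv_inj K (by omega) (by omega) (by omega)
    have hne2 : lv K k ≠ lv K (k + 1) := lv_inj K (by omega) (by omega) (by omega)
    obtain ⟨ihU, ihD⟩ := ih (k + 1) (by omega)
    constructor
    · intro s hs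
      have p1 := flip_x_up K hk hs
      obtain ⟨a1, a2, a3, ⟨a4, a4'⟩, a5, a6⟩ := hs
      obtain ⟨b1, b2, b3⟩ := a4 (k + 1 + 1) (by omega) (by omega)
      set s1 : St K := Function.update s (lv K (k + 1), 0) true with hs1
      have e1 : ∀ v : ZMod (K + 2) × Fin 3, v.1 ≠ lv K (k + 1) → s1 v = s v := by
        intro v hv
        rw [hs1, Function.update_of_ne]
        rintro rfl
        exact hv rfl
      have hD : DownHyp K s1 (k + 1) := by
        refine ⟨?_, ?_, ?_, ⟨?_, ?_⟩, ?_, ?_⟩
        · rw [e1 _ hne1]; exact b1
        · rw [e1 _ hne1]; exact b2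
        · rw [e1 _ hne1]; exact b3
        · intro i hi1 hi2
          have hne : lv K i ≠ lv K (k + 1) := lv_inj K (by omega) (by omega) (by omega)
          rw [e1 _ hne, e1 _ hne, e1 _ hne]
          exact a4 i (by omega) hi2
        · rw [e1 _ (lv_inj K (by omega) (by omega) (by omega))]; exact a4'
        · rw [hs1, Function.update_self, Function.update_of_ne (by simp), a3]; rfl
        · rw [hs1, Function.update_of_ne (by simp), Function.update_of_ne (by simp), a2, a3]
          simp
      obtain ⟨L2, s2, hL2, p2, c1, c2, c3, c4⟩ := ihD s1 hD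
      have p3 : (net (K + 2)).game.Path 1 ((net (K + 2)).state s2)
          ((net (K + 2)).state (Function.update s2 (lv K (k + 1), 1) false)) := by
        refine flip_d_down K (by omega) ?_ ?_ ?_ c1
        · rw [c4 _ hne1.symm, hs1, Function.update_self]
        · rw [c4 _ hne1.symm, hs1, Function.update_of_ne (by simp), a2]; simp
        · rw [c4 _ hne1.symm, hs1, Function.update_of_ne (by simp), a3]
      set s3 : St K := Function.update s2 (lv K (k + 1), 1) false with hs3
      have e3 : ∀ v : ZMod (K + 2) × Fin 3, v.1 ≠ lv K (k + 1) → s3 v = s2 v := by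
        intro v hv
        rw [hs3, Function.update_of_ne]
        rintro rfl
        exact hv rfl
      have f0 : s3 (lv K (k + 1), 0) = true := by
        rw [hs3, Function.update_of_ne (by simp), c4 _ hne1.symm, hs1, Function.update_self]
      have f1 : s3 (lv K (k + 1), 1) = false := by
        rw [hs3, Function.update_self]
      have f2 : s3 (lv K (k + 1), 2) = false := by
        rw [hs3, Function.update_of_ne (by simp), c4 _ hne1.symm, hs1,
          Function.update_of_ne (by simp), a3]
      have hU : UpHyp K s3 (k + 1) j := by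
        refine ⟨?_, ?_, ?_, ⟨?_, ?_⟩, ?_, f2⟩
        · rw [e3 _ hne1]; exact c1
        · rw [e3 _ hne1]; exact c2
        · rw [e3 _ hne1]; exact c3
        · intro i hi1 hi2
          have hne : lv K i ≠ lv K (k + 1) := lv_inj K (by omega) (by omega) (by omega)
          have hne' : lv K i ≠ lv K (k + 1 + 1) := lv_inj K (by omega) (by omega) (by omega)
          rw [e3 _ hne, e3 _ hne, e3 _ hne, c4 _ hne', c4 _ hne', c4 _ hne', e1 _ hne, e1 _ hne,
            e1 _ hne]
          exact a4 i (by omega) hi2
        · have hne : lv K (K + 1) ≠ lv K (k + 1) := lv_inj K (by omega) (by omega) (by omega)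
          have hne' : lv K (K + 1) ≠ lv K (k + 1 + 1) := lv_inj K (by omega) (by omega) (by omega)
          rw [e3 _ hne, c4 _ hne', e1 _ hne]; exact a4'
        · rw [f0, f1]; rfl
      obtain ⟨L4, s4, hL4, p4, d1, d2, d3, d4⟩ := ihU s3 hU
      refine ⟨1 + L2 + 1 + L4, s4, ?_, ((p1.trans p2).trans p3).trans p4, ?_, ?_, ?_, ?_⟩
      · rw [pow_succ]; omega
      · rw [d4 _ hne1.symm]; exact f0
      · rw [d4 _ hne1.symm]; exact f1
      · rw [d4 _ hne1.symm]; exact f2
      · intro v hv
        by_cases hv2 : v.1 = lv K (k + 1 + 1)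
        · obtain ⟨v1, v2⟩ := v
          simp only at hv2
          subst hv2
          fin_cases v2
          · exact d1.trans b1.symm
          · exact d2.trans b2.symm
          · exact d3.trans b3.symm
        · rw [d4 v hv2, e3 v hv, c4 v hv2, e1 v hv]
    · intro s hs
      have p1 := flip_x_down K hk hs
      obtain ⟨a1, a2, a3, ⟨a4, a4'⟩, a5, a6⟩ := hs
      obtain ⟨b1, b2, b3⟩ := a4 (k + 1 + 1) (by omega) (by omega)
      set s0 : St K := Function.update s (lv K (k + 1), 0) false with hs0
      have e0 : ∀ v : ZMod (K + 2) × Fin 3, v.1 ≠ lv K (k + 1) → s0 v = s v := by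
        intro v hv
        rw [hs0, Function.update_of_ne]
        rintro rfl
        exact hv rfl
      have p1' : (net (K + 2)).game.Path 1 ((net (K + 2)).state s0)
          ((net (K + 2)).state (Function.update s0 (lv K (k + 1), 2) true)) := by
        refine flip_g_up K (by omega) ?_ ?_ ?_ ?_
        · rw [hs0, Function.update_self]
        · rw [hs0, Function.update_of_ne (by simp), a2]
        · rw [hs0, Function.update_of_ne (by simp), a3]
        · rw [e0 _ hne1, b1]
      set s1 : St K := Function.update s0 (lv K (k + 1), 2) true with hs1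
      have e1 : ∀ v : ZMod (K + 2) × Fin 3, v.1 ≠ lv K (k + 1) → s1 v = s v := by
        intro v hv
        rw [hs1, Function.update_of_ne]
        · exact e0 v hv
        · rintro rfl
          exact hv rfl
      have g0 : s1 (lv K (k + 1), 0) = false := by
        rw [hs1, Function.update_of_ne (by simp), hs0, Function.update_self]
      have g1 : s1 (lv K (k + 1), 1) = false := by
        rw [hs1, Function.update_of_ne (by simp), hs0, Function.update_of_ne (by simp), a2]
      have g2 : s1 (lv K (k + 1), 2) = true := by
        rw [hs1, Function.update_self]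
      have hD : DownHyp K s1 (k + 1) := by
        refine ⟨?_, ?_, ?_, ⟨?_, ?_⟩, ?_, ?_⟩
        · rw [e1 _ hne1]; exact b1
        · rw [e1 _ hne1]; exact b2
        · rw [e1 _ hne1]; exact b3
        · intro i hi1 hi2
          have hne : lv K i ≠ lv K (k + 1) := lv_inj K (by omega) (by omega) (by omega)
          rw [e1 _ hne, e1 _ hne, e1 _ hne]
          exact a4 i (by omega) hi2
        · rw [e1 _ (lv_inj K (by omega) (by omega) (by omega))]; exact a4'
        · rw [g0, g2]; rfl
        · rw [g1, g2]; rfl
      obtain ⟨L2, s2, hL2, p2, c1, c2, c3, c4⟩ := ihD s1 hD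
      have p3 : (net (K + 2)).game.Path 1 ((net (K + 2)).state s2)
          ((net (K + 2)).state (Function.update s2 (lv K (k + 1), 1) true)) := by
        refine flip_d_up K (by omega) ?_ ?_ ?_ c1
        · rw [c4 _ hne1.symm, g0]
        · rw [c4 _ hne1.symm, g1]
        · rw [c4 _ hne1.symm, g2]
      set s3 : St K := Function.update s2 (lv K (k + 1), 1) true with hs3
      have e3 : ∀ v : ZMod (K + 2) × Fin 3, v.1 ≠ lv K (k + 1) → s3 v = s2 v := by
        intro v hv
        rw [hs3, Function.update_of_ne]
        rintro rfl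
        exact hv rfl
      have f0 : s3 (lv K (k + 1), 0) = false := by
        rw [hs3, Function.update_of_ne (by simp), c4 _ hne1.symm, g0]
      have f1 : s3 (lv K (k + 1), 1) = true := by
        rw [hs3, Function.update_self]
      have f2 : s3 (lv K (k + 1), 2) = true := by
        rw [hs3, Function.update_of_ne (by simp), c4 _ hne1.symm, g2]
      have p3' : (net (K + 2)).game.Path 1 ((net (K + 2)).state s3)
          ((net (K + 2)).state (Function.update s3 (lv K (k + 1), 2) false)) := by
        refine flip_g_down K (by omega) f0 f1 f2 ?_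
        rw [e3 _ hne1]; exact c1
      set s3' : St K := Function.update s3 (lv K (k + 1), 2) false with hs3'
      have e3' : ∀ v : ZMod (K + 2) × Fin 3, v.1 ≠ lv K (k + 1) → s3' v = s2 v := by
        intro v hv
        rw [hs3', Function.update_of_ne]
        · exact e3 v hv
        · rintro rfl
          exact hv rfl
      have f0' : s3' (lv K (k + 1), 0) = false := by
        rw [hs3', Function.update_of_ne (by simp), f0]
      have f1' : s3' (lv K (k + 1), 1) = true := by
        rw [hs3', Function.update_of_ne (by simp), f1]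
      have f2' : s3' (lv K (k + 1), 2) = false := by
        rw [hs3', Function.update_self]
      have hU : UpHyp K s3' (k + 1) j := by
        refine ⟨?_, ?_, ?_, ⟨?_, ?_⟩, ?_, f2'⟩
        · rw [e3' _ hne1]; exact c1
        · rw [e3' _ hne1]; exact c2
        · rw [e3' _ hne1]; exact c3
        · intro i hi1 hi2
          have hne : lv K i ≠ lv K (k + 1) := lv_inj K (by omega) (by omega) (by omega)
          have hne' : lv K i ≠ lv K (k + 1 + 1) := lv_inj K (by omega) (by omega) (by omega)
          rw [e3' _ hne, e3' _ hne, e3' _ hne, c4 _ hne', c4 _ hne', c4 _ hne', e1 _ hne, e1 _ hne,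
            e1 _ hne]
          exact a4 i (by omega) hi2
        · have hne : lv K (K + 1) ≠ lv K (k + 1) := lv_inj K (by omega) (by omega) (by omega)
          have hne' : lv K (K + 1) ≠ lv K (k + 1 + 1) := lv_inj K (by omega) (by omega) (by omega)
          rw [e3' _ hne, c4 _ hne', e1 _ hne]; exact a4'
        · rw [f0', f1']; rfl
      obtain ⟨L4, s4, hL4, p4, d1, d2, d3, d4⟩ := ihU s3' hU
      refine ⟨1 + 1 + L2 + 1 + 1 + L4, s4, ?_,
        ((((p1.trans p1').trans p2).trans p3).trans p3').trans p4, ?_, ?_, ?_, ?_⟩
      · rw [pow_succ]; omega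
      · rw [d4 _ hne1.symm]; exact f0'
      · rw [d4 _ hne1.symm, f1']; simp
      · rw [d4 _ hne1.symm]; exact f2'
      · intro v hv
        by_cases hv2 : v.1 = lv K (k + 1 + 1)
        · obtain ⟨v1, v2⟩ := v
          simp only at hv2
          subst hv2
          fin_cases v2
          · exact d1.trans b1.symm
          · exact d2.trans b2.symm
          · exact d3.trans b3.symm
        · rw [d4 v hv2, e3' v hv, c4 v hv2, e1 v hv]

end Path

/-- **Exponentially long best-response paths.** There is a constant `c > 0` such that for every `N`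
there is an instance of the budgeted sharing game with `n` agents and `m` sites, `n + m ≥ N`, which
has a best-response path of length at least `2 ^ (c (n + m))`, starting from a state with feasible
strategies. -/
theorem result : ∃ c : ℝ, 0 < c ∧ ∀ N : ℕ,
    ∃ (U H : Type) (_ : Fintype U) (_ : DecidableEq U) (_ : Fintype H) (_ : DecidableEq H)
      (G : Game U H) (L : ℕ) (S S' : U → Finset H),
      N ≤ Fintype.card U + Fintype.card H ∧ (∀ j, G.Feasible j (S j)) ∧ G.Path L S S' ∧
        (2 : ℝ) ^ (c * ((Fintype.card U : ℝ) + Fintype.card H)) ≤ L := by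
  refine ⟨1 / 24, by norm_num, fun N => ?_⟩
  let K : ℕ := N + 4
  let V : Type := ZMod (K + 2) × Fin 3
  let E : Type := ZMod (K + 2) × Fin 6
  -- the initial state
  let s : St K := fun v =>
    if v.1 = lv K 1 then decide (v.2 = 1)
    else if v.1 = lv K (K + 1) then false
    else decide (v.2 = 0)
  have hs1 : ∀ t : Fin 3, s (lv K 1, t) = decide (t = 1) := by
    intro t
    simp [s]
  have hs2 : ∀ l : ℕ, l ≠ 1 → l ≤ K → ∀ t : Fin 3, s (lv K l, t) = decide (t = 0) := by
    intro l hl hl2 t
    have h1 := lv_inj K (show l ≤ K + 1 by omega) (show 1 ≤ K + 1 by omega) hl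
    have h2 := lv_inj K (show l ≤ K + 1 by omega) (show K + 1 ≤ K + 1 by omega) (by omega)
    simp [s, h1, h2]
  have hs3 : ∀ t : Fin 3, s (lv K (K + 1), t) = false := by
    intro t
    have h1 := lv_inj K (show K + 1 ≤ K + 1 by omega) (show 1 ≤ K + 1 by omega) (by omega)
    simp [s, h1]
  obtain ⟨hU, -⟩ := main K (N + 3) 0 (by omega)
  obtain ⟨L, s', hL, hp, -⟩ := hU s (by
    refine ⟨?_, ?_, ?_, ⟨?_, ?_⟩, ?_, ?_⟩
    · rw [hs1]; rfl
    · rw [hs1]; rfl
    · rw [hs1]; rfl
    · intro i hi1 hi2
      rw [hs2 i (by omega) hi2, hs2 i (by omega) hi2, hs2 i (by omega) hi2]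
      exact ⟨rfl, rfl, rfl⟩
    · exact hs3 0
    · rw [hs2 0 (by omega) (by omega), hs2 0 (by omega) (by omega)]; rfl
    · rw [hs2 0 (by omega) (by omega)]; rfl)
  refine ⟨V, V ⊕ E, inferInstance, inferInstance, inferInstance, inferInstance,
    (net (K + 2)).game, L, (net (K + 2)).state s, (net (K + 2)).state s', ?_, ?_, hp, ?_⟩
  · simp only [V, E, Fintype.card_sum, Fintype.card_prod, ZMod.card, Fintype.card_fin, K]
    omega
  · exact fun v => (net (K + 2)).feasible_state (inc_card (K + 2)) s v
  · have h1 : ((Fintype.card V : ℝ) + Fintype.card (V ⊕ E)) = 12 * ((N : ℝ) + 6) := by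
      simp only [V, E, Fintype.card_sum, Fintype.card_prod, ZMod.card, Fintype.card_fin, K]
      push_cast
      ring
    rw [h1]
    calc (2 : ℝ) ^ (1 / 24 * (12 * ((N : ℝ) + 6))) ≤ (2 : ℝ) ^ (((N + 3 : ℕ) : ℝ)) := by
          refine Real.rpow_le_rpow_of_exponent_le (by norm_num) ?_
          push_cast
          have : (0 : ℝ) ≤ N := Nat.cast_nonneg N
          linarith
      _ = (2 : ℝ) ^ (N + 3) := Real.rpow_natCast _ _
      _ ≤ L := by exact_mod_cast hL

end Pool.Agent.Results.MP_2a1065_lc.ExponentialPath
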